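import Pool.Agent.P.MP_a3b544_ag.F2.Abs
import Pool.Agent.P.MP_a3b544_ag.F2.App
import Pool.Agent.P.MP_a3b544_ag.F2.Low

/-! The maximal intrinsic diameter of smooth surfaces of degree `d`, up to a factor two. -/

namespace Pool.Agent.Results.MP_a3b544_ag.FactorTwo

open Pool.Agent.P.MP_a3b544_ag

theorem result (d : ℕ) (hd : 1 ≤ d) :
    ENNReal.ofReal (Real.pi / 2 * (((d / 2 : ℕ) : ℝ) + 1)) ≤ maxDiam d ∧
      maxDiam d ≤ ENNReal.ofReal (Real.pi / 2 * d) :=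
  ⟨F2.lower_sharp hd, F2.upper_sharp F2.abstractBound hd⟩

end Pool.Agent.Results.MP_a3b544_ag.FactorTwo
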