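import Pool.Agent.P.MP_a3b544_ag.F2.Abs
import Pool.Agent.P.MP_a3b544_ag.PC.App
import Pool.Agent.P.MP_a3b544_ag.PC.Low

/-! The maximal intrinsic diameter of smooth plane curves of degree `d`. -/

namespace Pool.Agent.Results.MP_a3b544_ag.PlaneCurves

open Pool.Agent.P.MP_a3b544_ag

theorem result (d : ℕ) (hd : 1 ≤ d) : PC.maxDiam d = ENNReal.ofReal (Real.pi / 2 * d) :=
  le_antisymm (PC.upper_sharp F2.abstractBound hd) (PC.lower_sharp hd)

end Pool.Agent.Results.MP_a3b544_ag.PlaneCurves
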